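import Pool.Agent.N275.QD.Def

set_option autoImplicit false

/-!
# Project QD, part PH: the Dirichlet heat kernel of the half-plane
-/

namespace Pool.Agent.N130.QD

open MeasureTheory Set Filter Topology Complex
open Pool.Agent.R225.LP (gk)
open Pool.Agent.N275.QD
open scoped Real ENNReal ComplexConjugate


theorem D2_congr {f g : ℝ → ℝ} {a : ℝ} (h : f =ᶠ[𝓝 0] g) (hg : D2 g a) : D2 f a := by
  obtain ⟨g', h1, h2⟩ := hg
  refine ⟨g', ?_, h2⟩
  have h3 := h.eventually_nhds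
  filter_upwards [h1, h3] with x hx1 hx2
  exact hx1.congr_of_eventuallyEq hx2

theorem D2_sub {f g : ℝ → ℝ} {a b : ℝ} (hf : D2 f a) (hg : D2 g b) :
    D2 (fun x => f x - g x) (a - b) := by
  obtain ⟨f', h1, h2⟩ := hf
  obtain ⟨g', h3, h4⟩ := hg
  refine ⟨fun x => f' x - g' x, ?_, h2.sub h4⟩
  filter_upwards [h1, h3] with x hx1 hx2
  exact hx1.sub hx2

/-- the second derivative of a Gaussian -/
theorem D2_gauss (c A B t : ℝ) (ht : 0 < t) :
    D2 (fun x => A * Real.exp (-(((c - x) ^ 2 + B) / (4 * t))))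
      ((c ^ 2 / (4 * t ^ 2) - 1 / (2 * t)) * (A * Real.exp (-((c ^ 2 + B) / (4 * t))))) := by
  have h1 : ∀ x : ℝ, HasDerivAt (fun x : ℝ => -(((c - x) ^ 2 + B) / (4 * t)))
      ((c - x) / (2 * t)) x := by
    intro x
    have e := (((((hasDerivAt_id' x).const_sub c).fun_pow 2).add_const B).div_const (4 * t)).fun_neg
    refine e.congr_deriv ?_
    have := ht.ne'
    push_cast
    field_simp
    ring
  have h2 : ∀ x : ℝ, HasDerivAt (fun x => A * Real.exp (-(((c - x) ^ 2 + B) / (4 * t))))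
      (A * (Real.exp (-(((c - x) ^ 2 + B) / (4 * t))) * ((c - x) / (2 * t)))) x := fun x =>
    ((h1 x).exp).const_mul A
  refine ⟨_, Eventually.of_forall h2, ?_⟩
  have h3 : HasDerivAt (fun x : ℝ => (c - x) / (2 * t)) (-1 / (2 * t)) 0 :=
    ((hasDerivAt_id (0 : ℝ)).const_sub c).div_const (2 * t)
  have h4 := (((h1 0).exp).fun_mul h3).const_mul A
  refine h4.congr_deriv ?_
  have := ht.ne'
  simp only [sub_zero]
  field_simp
  ring

theorem norm_sq (z : ℂ) : ‖z‖ ^ 2 = z.re ^ 2 + z.im ^ 2 := by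
  rw [Complex.sq_norm, Complex.normSq_apply]; ring

theorem gk_x (t : ℝ) (ht : 0 < t) (c z : ℂ) :
    D2 (fun x : ℝ => gk t (c - (z + (x : ℂ))))
      (((c.re - z.re) ^ 2 / (4 * t ^ 2) - 1 / (2 * t)) * gk t (c - z)) := by
  have h := D2_gauss (c.re - z.re) (1 / (4 * π * t)) ((c.im - z.im) ^ 2) t ht
  have e1 : (fun x : ℝ => gk t (c - (z + (x : ℂ)))) = fun x : ℝ =>
      1 / (4 * π * t) * Real.exp (-(((c.re - z.re - x) ^ 2 + (c.im - z.im) ^ 2) / (4 * t))) := by
    funext x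
    rw [gk, norm_sq]
    simp only [sub_re, add_re, ofReal_re, sub_im, add_im, ofReal_im, add_zero]
    rw [sub_add_eq_sub_sub]
    ring
  have e2 : gk t (c - z) =
      1 / (4 * π * t) * Real.exp (-(((c.re - z.re) ^ 2 + (c.im - z.im) ^ 2) / (4 * t))) := by
    rw [gk, norm_sq]
    simp only [sub_re, sub_im]
    ring
  rw [e1, e2]
  exact h

theorem gk_y (t : ℝ) (ht : 0 < t) (c z : ℂ) :
    D2 (fun y : ℝ => gk t (c - (z + (y : ℂ) * I)))
      (((c.im - z.im) ^ 2 / (4 * t ^ 2) - 1 / (2 * t)) * gk t (c - z)) := by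
  have h := D2_gauss (c.im - z.im) (1 / (4 * π * t)) ((c.re - z.re) ^ 2) t ht
  have e1 : (fun y : ℝ => gk t (c - (z + (y : ℂ) * I))) = fun y : ℝ =>
      1 / (4 * π * t) * Real.exp (-(((c.im - z.im - y) ^ 2 + (c.re - z.re) ^ 2) / (4 * t))) := by
    funext y
    rw [gk, norm_sq]
    simp only [sub_re, add_re, ofReal_re, sub_im, add_im, ofReal_im, mul_re, mul_im, I_re, I_im,
      mul_zero, zero_mul, mul_one, sub_zero, add_zero]
    rw [sub_add_eq_sub_sub, add_comm ((c.re - z.re) ^ 2)]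
    ring
  have e2 : gk t (c - z) =
      1 / (4 * π * t) * Real.exp (-(((c.im - z.im) ^ 2 + (c.re - z.re) ^ 2) / (4 * t))) := by
    rw [gk, norm_sq]
    simp only [sub_re, sub_im]
    rw [add_comm ((c.re - z.re) ^ 2)]
    ring
  rw [e1, e2]
  exact h

theorem gk_t (t : ℝ) (ht : 0 < t) (w : ℂ) :
    HasDerivAt (fun τ => gk τ w) ((‖w‖ ^ 2 / (4 * t ^ 2) - 1 / t) * gk t w) t := by
  have h1 : HasDerivAt (fun τ : ℝ => -(‖w‖ ^ 2 / (4 * τ))) (‖w‖ ^ 2 / (4 * t ^ 2)) t := by
    have e := ((((hasDerivAt_id' t).const_mul (4 : ℝ)).fun_inv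
      (by simpa using ht.ne')).const_mul (‖w‖ ^ 2)).fun_neg
    have e' : (fun τ : ℝ => -(‖w‖ ^ 2 / (4 * τ))) = fun τ : ℝ => -(‖w‖ ^ 2 * (4 * τ)⁻¹) := by
      funext τ; rw [div_eq_mul_inv]
    rw [e']
    refine e.congr_deriv ?_
    have := ht.ne'
    field_simp
  have h2 : HasDerivAt (fun τ : ℝ => 4 * π * τ) (4 * π) t := by
    simpa using (hasDerivAt_id t).const_mul (4 * π)
  have h3 := h1.exp.fun_div h2 (by positivity)
  have e : (fun τ => gk τ w) = fun τ : ℝ => Real.exp (-(‖w‖ ^ 2 / (4 * τ))) / (4 * π * τ) := rfl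
  rw [e]
  refine h3.congr_deriv ?_
  unfold gk
  have := Real.pi_pos
  have := ht.ne'
  field_simp

theorem heat_gk (t : ℝ) (ht : 0 < t) (c z : ℂ) :
    ∃ a b : ℝ, D2 (fun x : ℝ => gk t (c - (z + (x : ℂ)))) a ∧
      D2 (fun y : ℝ => gk t (c - (z + (y : ℂ) * I))) b ∧
      HasDerivAt (fun τ => gk τ (c - z)) (a + b) t := by
  refine ⟨_, _, gk_x t ht c z, gk_y t ht c z, ?_⟩
  have h := gk_t t ht (c - z)
  convert h using 1
  rw [norm_sq, sub_re, sub_im]
  field_simp
  ring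

theorem gk_mono {t : ℝ} (ht : 0 < t) {u v : ℂ} (h : ‖u‖ ^ 2 ≤ ‖v‖ ^ 2) : gk t v ≤ gk t u := by
  unfold gk
  have := Real.pi_pos
  refine div_le_div_of_nonneg_right ?_ (by positivity)
  refine Real.exp_le_exp.2 (neg_le_neg ?_)
  exact div_le_div_of_nonneg_right h (by positivity)

theorem pH_eq {b : ℂ} (hb : 0 < b.im) {t : ℝ} (ht : 0 < t) (z : ℂ) :
    pH b t z = max (gk t (b - z) - gk t (conj b - z)) 0 := by
  have e : ‖conj b - z‖ ^ 2 - ‖b - z‖ ^ 2 = 4 * (b.im * z.im) := by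
    rw [norm_sq, norm_sq]
    simp only [sub_re, sub_im, conj_re, conj_im]
    ring
  rw [pH]
  split_ifs with h
  · rw [max_eq_left]
    rw [sub_nonneg]
    exact gk_mono ht (by nlinarith [mul_pos hb h])
  · push Not at h
    rw [max_eq_right]
    rw [sub_nonpos]
    exact gk_mono ht (by nlinarith [mul_nonneg hb.le (neg_nonneg.2 h)])

theorem gk_contOn (c : ℂ) : ContinuousOn (fun q : ℝ × ℂ => gk q.1 (c - q.2)) (Ioi 0 ×ˢ univ) := by
  unfold gk
  have h0 : ∀ q ∈ (Ioi (0 : ℝ)) ×ˢ (univ : Set ℂ), q.1 ≠ 0 := fun q hq => (ne_of_gt hq.1)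
  refine ContinuousOn.div ?_ (by fun_prop) fun q hq => ?_
  · refine Real.continuous_exp.comp_continuousOn ?_
    refine ContinuousOn.neg ?_
    refine ContinuousOn.div (by fun_prop) (by fun_prop) fun q hq => ?_
    have := h0 q hq
    simpa using this
  · have := h0 q hq
    have := Real.pi_ne_zero
    simp [*]

/-- PH: the Dirichlet heat kernel of the half-plane -/
theorem ph : S_PH := by
  intro b hb
  have hH : ∀ z : ℂ, z ∈ Hh 0 ↔ 0 < z.im := fun z => by simp [Hh]
  refine ⟨?_, ?_, ?_, ?_, ?_⟩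
  · intro t z ht hz
    rw [hH] at hz
    obtain ⟨a, a', h1, h2, h3⟩ := heat_gk t ht b z
    obtain ⟨c, c', h4, h5, h6⟩ := heat_gk t ht (conj b) z
    refine ⟨a - c, a' - c', D2_congr ?_ (D2_sub h1 h4), D2_congr ?_ (D2_sub h2 h5), ?_⟩
    · refine Eventually.of_forall fun x => ?_
      simp only [pH]
      rw [if_pos (by simpa using hz)]
    · have hc : ∀ᶠ y : ℝ in 𝓝 0, 0 < (z + (y : ℂ) * I).im := by
        have hcont : Continuous fun y : ℝ => (z + (y : ℂ) * I).im := by fun_prop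
        exact hcont.continuousAt.eventually (lt_mem_nhds (by simpa using hz))
      filter_upwards [hc] with y hy
      simp only [pH]
      rw [if_pos hy]
    · have h7 := h3.fun_sub h6
      have e7 : (fun τ => pH b τ z) = fun τ => gk τ (b - z) - gk τ (conj b - z) := by
        funext τ
        simp only [pH]
        rw [if_pos hz]
      rw [e7]
      refine h7.congr_deriv ?_
      ring
  · intro t z ht
    rw [pH_eq hb ht]
    exact le_max_right _ _
  · intro t z ht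
    have hg : ∀ w, 0 ≤ gk t w := fun w => by unfold gk; have := Real.pi_pos; positivity
    rw [pH_eq hb ht]
    exact max_le (by linarith [hg (conj b - z)]) (hg _)
  · intro t z ht hz
    rw [hH] at hz
    rw [pH, if_neg hz]
  · have h1 : ContinuousOn (fun q : ℝ × ℂ => max (gk q.1 (b - q.2) - gk q.1 (conj b - q.2)) 0)
        (Ioi 0 ×ˢ univ) :=
      (continuous_id.max continuous_const).comp_continuousOn
        ((gk_contOn b).sub (gk_contOn (conj b)))
    exact h1.congr fun q hq => pH_eq hb hq.1 q.2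

end Pool.Agent.N130.QD
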