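import Pool.Agent.N275.QD.Def

set_option autoImplicit false

/-!
# Project QD, part QE: the leading term of the remainder of a convex quadrilateral
-/

namespace Pool.Agent.N130.QD

open MeasureTheory Set Filter Topology Complex
open Pool.Agent.W780.PG (IsConvexPolygon region ang lft)
open Pool.Agent.Y289.SQ (Z area per)
open Pool.Agent.R225.LP
open Pool.Agent.N275.QD (dk Fst S_CD S_QE)
open scoped Real ENNReal ComplexConjugate

/-! ## cyclic indices -/

theorem fin4 (k j : Fin (1 + 3)) : j = k - 1 ∨ j = k ∨ j = k + 1 ∨ j = k + 1 + 1 := by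
  revert k j; decide

theorem fin4_prev (k : Fin (1 + 3)) : k + 1 + 1 + 1 = k - 1 := by revert k; decide

theorem fin4_prev' (k : Fin (1 + 3)) : k - 1 = k + 1 + 1 + 1 := (fin4_prev k).symm

theorem fin4_next (k : Fin (1 + 3)) : k + 1 + 1 + 1 + 1 = k := by revert k; decide

theorem f4a (k : Fin (1 + 3)) : k - 1 + 0 = k - 1 := by revert k; decide

theorem f4b (k : Fin (1 + 3)) : k - 1 + 1 = k := by revert k; decide

theorem f4c (k : Fin (1 + 3)) : k - 1 + 2 = k + 1 := by revert k; decide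

theorem f4d (k : Fin (1 + 3)) : k - 1 + 3 = k + 1 + 1 := by revert k; decide

theorem sum4 (f : Fin (1 + 3) → ℝ) (k : Fin (1 + 3)) :
    ∑ i, f i = f (k - 1) + f k + f (k + 1) + f (k + 1 + 1) := by
  have h1 := Equiv.sum_comp (Equiv.addLeft (k - 1)) f
  rw [← h1]
  have h2 : ∑ i : Fin (1 + 3), f ((Equiv.addLeft (k - 1)) i) =
      f (k - 1 + 0) + f (k - 1 + 1) + f (k - 1 + 2) + f (k - 1 + 3) := Fin.sum_univ_four _
  rw [h2, f4a, f4b, f4c, f4d]

/-! ## the area -/

section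
variable {n : ℕ} {u : Fin (n + 3) → ℂ}

theorem cr_prev (hc : ∀ i, 0 < cr (u i) (u (i + 1))) (k : Fin (n + 3)) :
    0 < cr (u (k - 1)) (u k) := by
  have h := hc (k - 1)
  rwa [sub_add_cancel] at h

theorem sk_add (hu : ∀ i, ‖u i‖ = 1) (hc : ∀ i, 0 < cr (u i) (u (i + 1))) (k : Fin (n + 3)) :
    sk u k + sk u (k + 1) =
      -(cr (u (k - 1)) (u (k + 1)) / (cr (u (k - 1)) (u k) * cr (u k) (u (k + 1)))) := by
  have h1 := (cr_prev hc k).ne'
  have h2 := (hc k).ne'
  rw [sk, sk, add_sub_cancel_right, CC.cr_add (A := u (k - 1)) (C := u (k + 1)) (hu k)]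
  field_simp
  ring

theorem sk_neg_iff (hu : ∀ i, ‖u i‖ = 1) (hc : ∀ i, 0 < cr (u i) (u (i + 1))) (k : Fin (n + 3)) :
    sk u k + sk u (k + 1) < 0 ↔ 0 < cr (u (k - 1)) (u (k + 1)) := by
  have h1 := cr_prev hc k
  have h2 := hc k
  rw [sk_add hu hc, neg_lt_zero, div_pos_iff_of_pos_right (mul_pos h1 h2)]

/-- a side with parallel or diverging neighbours does not disappear as long as there are points
left -/
theorem el_pos (hu : ∀ i, ‖u i‖ = 1) (hc : ∀ i, 0 < cr (u i) (u (i + 1))) {k : Fin (n + 3)}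
    (hk : cr (u (k - 1)) (u (k + 1)) ≤ 0) {d : Fin (n + 3) → ℝ} (hne : (hp u d).Nonempty) :
    0 < el u k d := by
  obtain ⟨z0, hz0⟩ := hne
  have a1 := hc k
  have a2 := cr_prev hc k
  have a3 := UG.el_mul hu hc k d
  have a4 := UG.ip_three (u (k - 1)) (u k) (u (k + 1)) z0
  have a5 := mul_lt_mul_of_pos_left (hz0 (k - 1)) a1
  have a6 := mul_lt_mul_of_pos_left (hz0 (k + 1)) a2
  have a7 : -cr (u (k - 1)) (u (k + 1)) * ip (u k) z0 ≤ -cr (u (k - 1)) (u (k + 1)) * d k :=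
    mul_le_mul_of_nonneg_left (hz0 k).le (by linarith)
  have a8 : 0 < el u k d * (cr (u (k - 1)) (u k) * cr (u k) (u (k + 1))) := by
    rw [a3]; linarith
  by_contra hcon
  push Not at hcon
  have := mul_nonpos_of_nonpos_of_nonneg hcon (mul_pos a2 a1).le
  linarith

end

/-- the area of a quadrilateral one side of which has disappeared -/
theorem area_case {u : Fin (1 + 3) → ℂ} (hu : ∀ i, ‖u i‖ = 1)
    (hc : ∀ i, 0 < cr (u i) (u (i + 1))) {k : Fin (1 + 3)}
    (hk : 0 < cr (u (k - 1)) (u (k + 1))) {d : Fin (1 + 3) → ℝ} (hne : (hp u d).Nonempty)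
    (hel : el u k d < 0) :
    area (hp u d) - qq u d = (el u k d) ^ 2 / (-(2 * (sk u k + sk u (k + 1)))) := by
  have c1 := cr_prev hc k
  have c2 := hc k
  have c3 := hc (k + 1)
  have c4 := hc (k + 1 + 1)
  rw [fin4_prev] at c4
  have hm := UG.el_mul hu hc k d
  have hneg : cr (u k) (u (k + 1)) * d (k - 1) + cr (u (k - 1)) (u k) * d (k + 1) -
      cr (u (k - 1)) (u (k + 1)) * d k < 0 := by
    rw [← hm]
    exact mul_neg_of_neg_of_pos hel (mul_pos c1 c2)
  have hset : hp u d = {z | ip (u (k - 1)) z < d (k - 1) ∧ ip (u (k + 1)) z < d (k + 1) ∧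
      ip (u (k + 1 + 1)) z < d (k + 1 + 1)} := by
    ext z
    constructor
    · intro h
      exact ⟨h _, h _, h _⟩
    · rintro ⟨h1, h2, h3⟩ j
      rcases fin4 k j with rfl | rfl | rfl | rfl
      · exact h1
      · have a4 := UG.ip_three (u (j - 1)) (u j) (u (j + 1)) z
        have a5 := mul_lt_mul_of_pos_left h1 c2
        have a6 := mul_lt_mul_of_pos_left h2 c1
        have a7 : cr (u (j - 1)) (u (j + 1)) * ip (u j) z < cr (u (j - 1)) (u (j + 1)) * d j := by
          linarith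
        exact lt_of_mul_lt_mul_left a7 hk.le
      · exact h2
      · exact h3
  have hX : 0 < d (k - 1) * cr (u (k + 1)) (u (k + 1 + 1)) +
      d (k + 1) * cr (u (k + 1 + 1)) (u (k - 1)) +
      d (k + 1 + 1) * cr (u (k - 1)) (u (k + 1)) := by
    obtain ⟨z, hz⟩ := hne
    have b1 := mul_lt_mul_of_pos_right (hz (k - 1)) c3
    have b2 := mul_lt_mul_of_pos_right (hz (k + 1)) c4
    have b3 := mul_lt_mul_of_pos_right (hz (k + 1 + 1)) hk
    have b4 : ip (u (k - 1)) z * cr (u (k + 1)) (u (k + 1 + 1)) +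
        ip (u (k + 1)) z * cr (u (k + 1 + 1)) (u (k - 1)) +
        ip (u (k + 1 + 1)) z * cr (u (k - 1)) (u (k + 1)) = 0 := by
      unfold ip cr; ring
    linarith
  have harea : area (hp u d) = (d (k - 1) * cr (u (k + 1)) (u (k + 1 + 1)) +
      d (k + 1) * cr (u (k + 1 + 1)) (u (k - 1)) +
      d (k + 1 + 1) * cr (u (k - 1)) (u (k + 1))) ^ 2 /
      (2 * (cr (u (k - 1)) (u (k + 1)) * cr (u (k + 1)) (u (k + 1 + 1)) *
        cr (u (k + 1 + 1)) (u (k - 1)))) := by
    have h1 := ta (u (k - 1)) (u (k + 1)) (u (k + 1 + 1)) (d (k - 1)) (d (k + 1))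
      (d (k + 1 + 1)) hk c3 c4
    rw [← hset, max_eq_left hX.le] at h1
    have h2 : area (hp u d) = (volume (hp u d)).toReal := rfl
    rw [h2, h1, ENNReal.toReal_ofReal (by positivity)]
  have h3 := CC.three (A := u (k - 1)) (C := u (k + 1)) (D := u (k + 1 + 1)) (hu _) (hu _) (hu _)
    hk c3 c4 (d (k - 1)) (d (k + 1)) (d (k + 1 + 1))
  have h4 := CC.tau_id (A := u (k - 1)) (B := u k) (C := u (k + 1)) (hu _) (hu _) (hu _)
    c1.ne' c2.ne' hk.ne' (d (k - 1)) (d k) (d (k + 1))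
  have hq : qq u d = tau (u (k - 1)) (u k) (d (k - 1)) (d k) +
      tau (u k) (u (k + 1)) (d k) (d (k + 1)) +
      tau (u (k + 1)) (u (k + 1 + 1)) (d (k + 1)) (d (k + 1 + 1)) +
      tau (u (k + 1 + 1)) (u (k - 1)) (d (k + 1 + 1)) (d (k - 1)) := by
    rw [qq, sum4 _ k]
    simp only [sub_add_cancel, fin4_prev]
  rw [harea, ← h3, hq, sk_add hu hc]
  have h5 : d (k - 1) * cr (u k) (u (k + 1)) + d (k + 1) * cr (u (k - 1)) (u k) -
      d k * cr (u (k - 1)) (u (k + 1)) =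
      el u k d * (cr (u (k - 1)) (u k) * cr (u k) (u (k + 1))) := by
    rw [hm]; ring
  rw [h5] at h4
  have h6 : (el u k d * (cr (u (k - 1)) (u k) * cr (u k) (u (k + 1)))) ^ 2 /
      (2 * (cr (u (k - 1)) (u (k + 1)) * cr (u k) (u (k + 1)) * cr (u (k - 1)) (u k))) =
      (el u k d) ^ 2 / (-(2 * -(cr (u (k - 1)) (u (k + 1)) /
        (cr (u (k - 1)) (u k) * cr (u k) (u (k + 1)))))) := by
    have e1 := c1.ne'
    have e2 := c2.ne'
    have e3 := hk.ne'
    field_simp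
  rw [← h6, ← h4]
  ring

/-! ## the range of the loop and the loss of a side -/

theorem sq_cr_ip {A B : ℂ} (hA : ‖A‖ = 1) (hB : ‖B‖ = 1) (h : 0 < cr A B) :
    √(1 + (-(ip A B / cr A B)) ^ 2) = 1 / cr A B := by
  have h1 := CC.sq_id hA hB
  have h2 : 1 + (-(ip A B / cr A B)) ^ 2 = (1 / cr A B) ^ 2 := by
    field_simp
    linarith
  rw [h2, Real.sqrt_sq (by positivity)]

theorem range_el {p : Fin (1 + 3) → ℂ} (hP : IsConvexPolygon p) {j : Fin (1 + 3)}
    (hj : sk (nu p) j + sk (nu p) (j + 1) < 0) : ∃ (w : ℂ) (s : ℝ), ‖w‖ = 1 ∧ 0 < s ∧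
      dk p j = s * ‖p (j + 1) - p j‖ ∧ el (nu p) j (co p) = ‖p (j + 1) - p j‖ ∧
      ∀ S : Set ℂ, S.Finite → (0 : ℂ) ∈ S →
        el (nu p) j (fun i => hS S (nu p i)) ≤ (hS S w + hS S (-w)) / s := by
  have hinj := (Pool.Agent.W174.PG.basic 1 p hP).1
  have hu : ∀ i, ‖nu p i‖ = 1 := norm_nu hinj
  have hc : ∀ i, 0 < cr (nu p i) (nu p (i + 1)) := cr_nu hinj hP
  have c1 := cr_prev hc j
  have c2 := hc j
  have hk : 0 < cr (nu p (j - 1)) (nu p (j + 1)) := (sk_neg_iff hu hc j).1 hj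
  have hel : el (nu p) j (co p) = ‖p (j + 1) - p j‖ := RG.el_co (n := 0) hP hinj j
  have hIB : ‖I * nu p j‖ = 1 := by rw [norm_mul, Complex.norm_I, hu, one_mul]
  have e1 : sk (nu p) j = -(ip (nu p (j - 1)) (nu p j) / cr (nu p (j - 1)) (nu p j)) := rfl
  have e2 : sk (nu p) (j + 1) = -(ip (nu p j) (nu p (j + 1)) / cr (nu p j) (nu p (j + 1))) := by
    rw [sk, add_sub_cancel_right]
  by_cases h1 : 0 ≤ ip (nu p (j - 1)) (nu p j)
  · have s1 : sk (nu p) j ≤ 0 := by
      rw [e1, neg_nonpos]; positivity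
    by_cases h2 : 0 ≤ ip (nu p j) (nu p (j + 1))
    · have s2 : sk (nu p) (j + 1) ≤ 0 := by
        rw [e2, neg_nonpos]; positivity
      refine ⟨I * nu p j, 1, hIB, one_pos, ?_, hel, fun S hf h0 => ?_⟩
      · rw [dk, max_eq_left (max_le s1 s2)]
        simp
      · exact RG.case1 c1 c2 (hu _) h1 h2 hf h0
    · push Not at h2
      have s2 : 0 < sk (nu p) (j + 1) := by
        rw [e2, neg_pos]; exact div_neg_of_neg_of_pos h2 c2
      refine ⟨nu p (j + 1), cr (nu p j) (nu p (j + 1)), hu _, c2, ?_, hel, fun S hf h0 => ?_⟩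
      · rw [dk, max_eq_right (s1.trans s2.le), max_eq_right s2.le, e2,
          sq_cr_ip (hu _) (hu _) c2, div_div_eq_mul_div, div_one, mul_comm]
      · exact RG.case2 c1 c2 (hu _) hk hf h0
  · push Not at h1
    have s1 : 0 < sk (nu p) j := by
      rw [e1, neg_pos]; exact div_neg_of_neg_of_pos h1 c1
    have s2 : sk (nu p) (j + 1) < 0 := by linarith
    refine ⟨nu p (j - 1), cr (nu p (j - 1)) (nu p j), hu _, c1, ?_, hel, fun S hf h0 => ?_⟩
    · rw [dk, max_eq_left (s2.le.trans s1.le), max_eq_right s1.le, e1,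
        sq_cr_ip (hu _) (hu _) c1, div_div_eq_mul_div, div_one, mul_comm]
    · exact RG.case3 c1 c2 (hu _) hk hf h0

/-! ## the inscribed disc is large -/

theorem hS_pair (v u : ℂ) : hS {0, v} u = max 0 (ip u v) := by
  rw [hS, image_pair, csSup_pair, ip_zero_right]

theorem hS_pair_range {w : ℂ} (hw : ‖w‖ = 1) (v : ℂ) :
    hS {0, v} w + hS {0, v} (-w) ≤ ‖v‖ := by
  rw [hS_pair, hS_pair, ip_neg_left]
  have h := ip_le w v
  rw [hw, one_mul] at h
  rcases le_total 0 (ip w v) with h1 | h1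
  · rw [max_eq_right h1, max_eq_left (by linarith), add_zero]
    exact (le_abs_self _).trans h
  · rw [max_eq_left h1, max_eq_right (by linarith), zero_add]
    exact (neg_le_abs _).trans h

theorem big_disc (hCD : S_CD) {p : Fin (1 + 3) → ℂ} (hP : IsConvexPolygon p) {k : Fin (1 + 3)}
    (hF : Fst p k) : ∃ (z : ℂ) (ρ : ℝ), Ins p z ρ ∧ dk p k < 2 * ρ := by
  have hinj := (Pool.Agent.W174.PG.basic 1 p hP).1
  have hu : ∀ i, ‖nu p i‖ = 1 := norm_nu hinj
  have hc : ∀ i, 0 < cr (nu p i) (nu p (i + 1)) := cr_nu hinj hP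
  have hsd : sd p = dk p k := hCD p k hP hF
  obtain ⟨z, ρ, hI, hle, halt⟩ := h_ID 0 p hP
  refine ⟨z, ρ, hI, ?_⟩
  rw [← hsd]
  rcases halt with h | ⟨h, i, j, hij, hco⟩
  · obtain ⟨v, -, h2, hne, l, hl⟩ := h 1 one_pos
    have hl' : 0 < cr (nu p (l - 1)) (nu p (l + 1)) := by
      by_contra hcon
      push Not at hcon
      exact absurd hl (not_lt.2 (el_pos hu hc hcon hne).le)
    obtain ⟨hs0, hR⟩ := rg 0 p hP
    obtain ⟨w, s, hw, hs, hs1, h3, h4, h5⟩ := hR l hl'
    have h6 := h5 {0, v} (by simp) (by simp)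
    have h7 : el (nu p) l (cv p v) = el (nu p) l (co p) -
        el (nu p) l (fun i => hS {0, v} (nu p i)) := by
      rw [← UG.el_sub]
      congr 1
      funext i
      rw [hS_pair]
      rfl
    have h8 := hS_pair_range hw v
    rw [h7, h4] at hl
    have h9 : ‖p (l + 1) - p l‖ < ‖v‖ / s :=
      lt_of_lt_of_le (by linarith) (h6.trans (div_le_div_of_nonneg_right h8 hs.le))
    rw [lt_div_iff₀ hs] at h9
    have h10 : sd p < ‖v‖ := lt_of_le_of_lt h3 (by linarith)
    exact h10.trans h2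
  · exfalso
    have hneg : ∀ a : ℂ, cr a (-a) = 0 := fun a => by unfold cr; simp; ring
    have hneg' : ∀ a : ℂ, cr (-a) a = 0 := fun a => by unfold cr; simp; ring
    have hj : j = i + 1 + 1 := by
      rcases fin4 i j with rfl | rfl | rfl | rfl
      · have := hc (i - 1)
        rw [sub_add_cancel, hij, hneg'] at this
        exact absurd this (lt_irrefl _)
      · have h1 := hu j
        have h2 : nu p j = 0 := by
          have : nu p j + nu p j = 0 := by nth_rewrite 1 [hij]; ring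
          have h3 : (2 : ℂ) * nu p j = 0 := by rw [two_mul]; exact this
          exact (mul_eq_zero.1 h3).resolve_left two_ne_zero
        rw [h2, norm_zero] at h1
        exact (zero_ne_one h1).elim
      · have := hc i
        rw [hij, hneg] at this
        exact absurd this (lt_irrefl _)
      · rfl
    subst hj
    have s1 : sk (nu p) (i + 1) + sk (nu p) (i + 1 + 1) = 0 := by
      rw [sk_add hu hc, add_sub_cancel_right, hij, hneg]; simp
    have hk1 : i + 1 ≠ k := by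
      rintro rfl
      have := hF.1
      linarith
    have h5 := hF.2 (i + 1) hk1 s1.le
    have h6 : dk p (i + 1) = sd p := by
      have c2 := hc i
      have e1 : sk (nu p) (i + 1) = -(ip (nu p i) (nu p (i + 1)) / cr (nu p i) (nu p (i + 1))) := by
        rw [sk, add_sub_cancel_right]
      have e2 : sk (nu p) (i + 1 + 1) = -sk (nu p) (i + 1) := by linarith
      have e3 : (max 0 (max (sk (nu p) (i + 1)) (sk (nu p) (i + 1 + 1)))) ^ 2 =
          (sk (nu p) (i + 1)) ^ 2 := by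
        rw [e2]
        rcases le_total 0 (sk (nu p) (i + 1)) with h | h
        · rw [max_eq_left (by linarith : -sk (nu p) (i + 1) ≤ sk (nu p) (i + 1)), max_eq_right h]
        · rw [max_eq_right (by linarith : sk (nu p) (i + 1) ≤ -sk (nu p) (i + 1)),
            max_eq_right (by linarith), neg_sq]
      have e4 : co p (i + 1 + 1) = -ip (nu p i) (p (i + 1 + 1)) := by
        have : co p (i + 1 + 1) = ip (nu p (i + 1 + 1)) (p (i + 1 + 1)) := rfl
        rw [this, hij, ip_neg_left]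
      rw [dk, e3, e1, sq_cr_ip (hu _) (hu _) c2, div_div_eq_mul_div, div_one, ← hco, e4]
      have a1 : ip (nu p i) (p (i + 1)) = co p i := RG.co_side (n := 0) hinj i
      have a2 : co p i = ip (nu p i) (p i) := rfl
      obtain ⟨b1, b2⟩ := side_eq hinj (i + 1)
      have a3 : ip (nu p i) (p (i + 1 + 1) - p (i + 1)) =
          -(‖p (i + 1 + 1) - p (i + 1)‖ * cr (nu p i) (nu p (i + 1))) := by
        conv_lhs => rw [b2]
        rw [ip_smul_right]
        have : ip (nu p i) (I * nu p (i + 1)) = -cr (nu p i) (nu p (i + 1)) := by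
          unfold ip cr; simp; ring
        rw [this]; ring
      rw [ip_sub_right] at a3
      linarith
    linarith

/-! ## the lost length of a side as a function of the loop -/

section
variable {n : ℕ} {p : Fin (n + 3) → ℂ}

/-- the side length lost because of the loop -/
noncomputable def ys (p : Fin (n + 3) → ℂ) (k : Fin (n + 3)) {M : ℕ} (X : Fin M → ℂ) : ℝ :=
  el (nu p) k (fun i => hx X (nu p i))

theorem ys_cont (k : Fin (n + 3)) {M : ℕ} (hM : 0 < M) :
    Continuous (fun X : Fin M → ℂ => ys p k X) := by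
  unfold ys el
  exact (((hx_cont hM _).sub ((hx_cont hM _).mul_const _)).div_const _).add
    (((hx_cont hM _).sub ((hx_cont hM _).mul_const _)).div_const _)

theorem ys_le (hu : ∀ i, ‖nu p i‖ = 1) (hc : ∀ i, 0 < cr (nu p i) (nu p (i + 1)))
    (k : Fin (n + 3)) {M : ℕ} (hM : 0 < M) (X : Fin M → ℂ) :
    |ys p k X| ≤ (2 / cr (nu p (k - 1)) (nu p k) + 2 / cr (nu p k) (nu p (k + 1))) * mx X := by
  have c1 := cr_prev hc k
  have c2 := hc k
  have a : ∀ i, hx X (nu p i) ≤ mx X := fun i => by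
    have := hx_le hM X (nu p i)
    rwa [hu i, one_mul] at this
  have b : ∀ i, 0 ≤ hx X (nu p i) := fun i => hx_nonneg hM X _
  have hm := mx_nonneg hM X
  have hip : ∀ i j, |ip (nu p i) (nu p j)| ≤ 1 := fun i j => by
    have := ip_le (nu p i) (nu p j)
    rwa [hu i, hu j, one_mul] at this
  have key : ∀ i j : Fin (n + 3), |hx X (nu p i) - hx X (nu p k) * ip (nu p j) (nu p k)| ≤
      2 * mx X := by
    intro i j
    refine (abs_sub _ _).trans ?_
    rw [abs_mul, abs_of_nonneg (b i), abs_of_nonneg (b k)]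
    have h1 := mul_le_mul (a k) (hip j k) (abs_nonneg _) hm
    linarith [a i]
  have hcomm : ip (nu p k) (nu p (k + 1)) = ip (nu p (k + 1)) (nu p k) := CC.ip_comm _ _
  unfold ys el
  refine (abs_add_le _ _).trans ?_
  rw [abs_div, abs_div, abs_of_pos c1, abs_of_pos c2, add_mul, hcomm]
  refine add_le_add ?_ ?_
  · rw [div_mul_eq_mul_div]
    exact div_le_div_of_nonneg_right (key _ _) c1.le
  · rw [div_mul_eq_mul_div]
    exact div_le_div_of_nonneg_right (key _ _) c2.le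

theorem el_sub (k : Fin (n + 3)) {M : ℕ} (X : Fin M → ℂ) :
    el (nu p) k (fun i => co p i - hx X (nu p i)) = el (nu p) k (co p) - ys p k X := by
  rw [ys, ← UG.el_sub]

theorem hx_pos_smul {M : ℕ} (hM : 0 < M) (X : Fin M → ℂ) {c : ℝ} (hc : 0 ≤ c) (u : ℂ) :
    hx X ((c : ℂ) * u) = c * hx X u := by
  rcases hc.eq_or_lt with h | h
  · rw [← h]
    obtain ⟨⟨z, hz, he⟩, -⟩ := hS_spec (pts_finite X) ⟨0, pts_zero hM X⟩ (((0 : ℝ) : ℂ) * u)
    rw [hx, he, ip_smul_left, zero_mul, zero_mul]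
  · obtain ⟨⟨z, hz, he⟩, h1⟩ := hS_spec (pts_finite X) ⟨0, pts_zero hM X⟩ ((c : ℂ) * u)
    obtain ⟨⟨y, hy, hey⟩, h2⟩ := hS_spec (pts_finite X) ⟨0, pts_zero hM X⟩ u
    refine le_antisymm ?_ ?_
    · rw [hx, he, ip_smul_left]
      exact mul_le_mul_of_nonneg_left (h2 z hz) hc
    · rw [hx, hx, hey, ← ip_smul_left]
      exact h1 y hy

/-- RI: rotation invariance -/
theorem ri (hP : IsConvexPolygon p) (k : Fin (n + 3)) (l t : ℝ) (M : ℕ) (ht : 0 < t) (hM : 0 < M) :
    ∫ X : Fin M → ℂ, (max (ys p k X - l) 0) ^ 2 ∂(PG (t / M) M) =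
      NN (sk (nu p) (k + 1)) (sk (nu p) k) l t M := by
  obtain ⟨-, hnu, -⟩ := g1_thm n p hP
  have hu : ∀ k, ‖nu p k‖ = 1 := fun k => (hnu k).1
  have hc : ∀ k, 0 < cr (nu p k) (nu p (k + 1)) := fun k => (hnu k).2
  have hMR : (0 : ℝ) < M := by exact_mod_cast hM
  have hs : 0 < t / (M : ℝ) := div_pos ht hMR
  have c1 := cr_prev hc k
  have c2 := hc k
  have hw := hu k
  have hm : Measurable (fun (X : Fin M → ℂ) (i : Fin M) => nu p k * X i) := by fun_prop
  have hcont : Continuous (fun X : Fin M → ℂ => (max (ys p k X - l) 0) ^ 2) :=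
    (((ys_cont k hM).sub continuous_const).max continuous_const).pow 2
  unfold NN
  conv_lhs => rw [← D1.PG_rot hs hw M]
  rw [integral_map hm.aemeasurable hcont.aestronglyMeasurable]
  refine integral_congr_ae (Eventually.of_forall fun X => ?_)
  have hsq := CC.nsq hw
  -- the neighbouring normals in the turned coordinates
  have d1 : nu p (k - 1) = nu p k * ((cr (nu p (k - 1)) (nu p k) : ℂ) *
      (-I - (sk (nu p) k : ℂ))) := by
    have e : (cr (nu p (k - 1)) (nu p k) : ℂ) * (-I - (sk (nu p) k : ℂ)) =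
        (ip (nu p (k - 1)) (nu p k) : ℂ) - (cr (nu p (k - 1)) (nu p k) : ℂ) * I := by
      have h0 : (cr (nu p (k - 1)) (nu p k) : ℂ) ≠ 0 := by exact_mod_cast c1.ne'
      rw [sk]
      push_cast
      field_simp
      ring
    rw [e]
    apply Complex.ext
    · simp only [ip, cr, mul_re, mul_im, sub_re, sub_im, ofReal_re, ofReal_im, I_re, I_im]
      linear_combination (-(nu p (k - 1)).re) * hsq
    · simp only [ip, cr, mul_re, mul_im, sub_re, sub_im, ofReal_re, ofReal_im, I_re, I_im]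
      linear_combination (-(nu p (k - 1)).im) * hsq
  have hsk : sk (nu p) (k + 1) = -(ip (nu p k) (nu p (k + 1)) / cr (nu p k) (nu p (k + 1))) := by
    rw [sk, add_sub_cancel_right]
  have d2 : nu p (k + 1) = nu p k * ((cr (nu p k) (nu p (k + 1)) : ℂ) *
      (I - (sk (nu p) (k + 1) : ℂ))) := by
    have e : (cr (nu p k) (nu p (k + 1)) : ℂ) * (I - (sk (nu p) (k + 1) : ℂ)) =
        (ip (nu p k) (nu p (k + 1)) : ℂ) + (cr (nu p k) (nu p (k + 1)) : ℂ) * I := by
      have h0 : (cr (nu p k) (nu p (k + 1)) : ℂ) ≠ 0 := by exact_mod_cast c2.ne'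
      rw [hsk]
      push_cast
      field_simp
      ring
    rw [e]
    apply Complex.ext
    · simp only [ip, cr, mul_re, mul_im, add_re, add_im, ofReal_re, ofReal_im, I_re, I_im]
      linear_combination (-(nu p (k + 1)).re) * hsq
    · simp only [ip, cr, mul_re, mul_im, add_re, add_im, ofReal_re, ofReal_im, I_re, I_im]
      linear_combination (-(nu p (k + 1)).im) * hsq
  have f0 : hx (fun i => nu p k * X i) (nu p k) = hx X 1 := by
    have := D1.hx_rot hw X 1
    rwa [mul_one] at this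
  have f1 : hx (fun i => nu p k * X i) (nu p (k - 1)) =
      cr (nu p (k - 1)) (nu p k) * hx X (-I - (sk (nu p) k : ℂ)) := by
    have h := D1.hx_rot hw X ((cr (nu p (k - 1)) (nu p k) : ℂ) * (-I - (sk (nu p) k : ℂ)))
    rw [← d1] at h
    rw [h, hx_pos_smul hM X c1.le]
  have f2 : hx (fun i => nu p k * X i) (nu p (k + 1)) =
      cr (nu p k) (nu p (k + 1)) * hx X (I - (sk (nu p) (k + 1) : ℂ)) := by
    have h := D1.hx_rot hw X ((cr (nu p k) (nu p (k + 1)) : ℂ) * (I - (sk (nu p) (k + 1) : ℂ)))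
    rw [← d2] at h
    rw [h, hx_pos_smul hM X c2.le]
  have f3 : ys p k (fun i => nu p k * X i) = YN (sk (nu p) (k + 1)) (sk (nu p) k) X := by
    rw [ys, el, f0, f1, f2, YN, hsk]
    rw [sk]
    have h1 := c1.ne'
    have h2 := c2.ne'
    field_simp
    ring
  simp only [f3]

end

/-! ## the pointwise identity -/

/-- the difference of the defect and the contribution of the side `k` -/
noncomputable def Qd (p : Fin (1 + 3) → ℂ) (k : Fin (1 + 3)) {M : ℕ} (X : Fin M → ℂ) : ℝ :=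
  dl p X - (max (ys p k X - ‖p (k + 1) - p k‖) 0) ^ 2 /
    (-(2 * (sk (nu p) k + sk (nu p) (k + 1))))

theorem good {p : Fin (1 + 3) → ℂ} (hP : IsConvexPolygon p) {k : Fin (1 + 3)}
    (hk : sk (nu p) k + sk (nu p) (k + 1) < 0) {M : ℕ} {X : Fin M → ℂ}
    (hne : (hp (nu p) (fun i => co p i - hx X (nu p i))).Nonempty)
    (hj : ∀ j, j ≠ k → sk (nu p) j + sk (nu p) (j + 1) < 0 →
      0 ≤ el (nu p) j (fun i => co p i - hx X (nu p i))) : Qd p k X = 0 := by
  have hinj := (Pool.Agent.W174.PG.basic 1 p hP).1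
  have hu : ∀ i, ‖nu p i‖ = 1 := norm_nu hinj
  have hc : ∀ i, 0 < cr (nu p i) (nu p (i + 1)) := cr_nu hinj hP
  have hel : el (nu p) k (co p) = ‖p (k + 1) - p k‖ := RG.el_co (n := 0) hP hinj k
  have hs := el_sub (p := p) k X
  rw [hel] at hs
  rcases lt_or_ge (el (nu p) k (fun i => co p i - hx X (nu p i))) 0 with h | h
  · have h1 := area_case hu hc ((sk_neg_iff hu hc k).1 hk) hne h
    have h2 : max (ys p k X - ‖p (k + 1) - p k‖) 0 =
        -el (nu p) k (fun i => co p i - hx X (nu p i)) := by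
      rw [hs] at h ⊢
      rw [max_eq_left (by linarith), neg_sub]
    rw [Qd, dl, h1, h2, neg_sq, sub_self]
  · have h2 : max (ys p k X - ‖p (k + 1) - p k‖) 0 = 0 := by
      rw [hs] at h
      rw [max_eq_right (by linarith)]
    have h1 := (h_UA 1 p hP (fun i => co p i - hx X (nu p i)) (fun j => by
      by_cases hjk : j = k
      · rw [hjk]; exact h
      · by_cases h3 : sk (nu p) j + sk (nu p) (j + 1) < 0
        · exact hj j hjk h3
        · have h4 : cr (nu p (j - 1)) (nu p (j + 1)) ≤ 0 := by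
            by_contra hcon
            push Not at hcon
            exact h3 ((sk_neg_iff hu hc j).2 hcon)
          exact (el_pos hu hc h4 hne).le)).1
    rw [Qd, dl, h1, h2]
    simp

theorem Qd_le {p : Fin (1 + 3) → ℂ} (hP : IsConvexPolygon p) {k : Fin (1 + 3)}
    (hk : sk (nu p) k + sk (nu p) (k + 1) < 0) : ∃ C : ℝ, 0 ≤ C ∧ ∀ (M : ℕ), 0 < M →
      ∀ X : Fin M → ℂ, |Qd p k X| ≤ C * (1 + mx X ^ 2) := by
  have hinj := (Pool.Agent.W174.PG.basic 1 p hP).1
  have hu : ∀ i, ‖nu p i‖ = 1 := norm_nu hinj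
  have hc : ∀ i, 0 < cr (nu p i) (nu p (i + 1)) := cr_nu hinj hP
  obtain ⟨C₁, hC₁, hdl⟩ := XP.dl_le2 g1_thm hP
  set D : ℝ := -(2 * (sk (nu p) k + sk (nu p) (k + 1))) with hD
  have hD0 : 0 < D := by rw [hD]; linarith
  set B : ℝ := 2 / cr (nu p (k - 1)) (nu p k) + 2 / cr (nu p k) (nu p (k + 1)) with hB
  refine ⟨C₁ + (2 * B ^ 2 + 2 * ‖p (k + 1) - p k‖ ^ 2) / D, by positivity, fun M hM X => ?_⟩
  have hm := mx_nonneg hM X
  have b1 := hdl M hM X
  have b2 : |(max (ys p k X - ‖p (k + 1) - p k‖) 0) ^ 2 / D| ≤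
      (2 * B ^ 2 + 2 * ‖p (k + 1) - p k‖ ^ 2) / D * (1 + mx X ^ 2) := by
    rw [abs_of_nonneg (by positivity), div_mul_eq_mul_div]
    refine div_le_div_of_nonneg_right ?_ hD0.le
    have c1 := abs_le.1 (ys_le hu hc k hM X)
    rw [← hB] at c1
    have c2 : (max (ys p k X - ‖p (k + 1) - p k‖) 0) ^ 2 ≤
        (ys p k X - ‖p (k + 1) - p k‖) ^ 2 := by
      rcases le_total (ys p k X - ‖p (k + 1) - p k‖) 0 with h | h
      · rw [max_eq_right h]; nlinarith [sq_nonneg (ys p k X - ‖p (k + 1) - p k‖)]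
      · rw [max_eq_left h]
    have c3 : ys p k X ^ 2 ≤ (B * mx X) ^ 2 := sq_le_sq' (by linarith [c1.1]) c1.2
    have c4 := sq_nonneg B
    have c5 := sq_nonneg ‖p (k + 1) - p k‖
    have c6 : 0 ≤ ‖p (k + 1) - p k‖ ^ 2 * mx X ^ 2 := by positivity
    nlinarith [sq_nonneg (ys p k X + ‖p (k + 1) - p k‖)]
  have b3 : |Qd p k X| ≤ |dl p X| + |(max (ys p k X - ‖p (k + 1) - p k‖) 0) ^ 2 / D| := abs_sub _ _
  refine b3.trans ?_
  rw [add_mul]
  exact add_le_add b1 b2

/-- finitely many numbers greater than `a` have a lower bound greater than `a` -/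
theorem exists_low {ι : Type} (F : Finset ι) (f : ι → ℝ) (a : ℝ) (h : ∀ i ∈ F, a < f i) :
    ∃ x : ℝ, a < x ∧ ∀ i ∈ F, x ≤ f i := by
  classical
  induction F using Finset.induction_on with
  | empty => exact ⟨a + 1, by linarith, fun i hi => absurd hi (Finset.notMem_empty i)⟩
  | insert i F hi ih =>
    obtain ⟨x, hx, hx'⟩ := ih fun j hj => h j (Finset.mem_insert_of_mem hj)
    refine ⟨min x (f i), lt_min hx (h i (Finset.mem_insert_self i F)), fun j hj => ?_⟩
    rcases Finset.mem_insert.1 hj with rfl | hj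
    · exact min_le_right _ _
    · exact (min_le_left _ _).trans (hx' j hj)

/-- QE: the leading term of the remainder of a convex quadrilateral -/
theorem qe (hCD : S_CD) : S_QE := by
  classical
  intro p k hP hF
  have hk := hF.1
  have hinj := (Pool.Agent.W174.PG.basic 1 p hP).1
  have hu : ∀ i, ‖nu p i‖ = 1 := norm_nu hinj
  have hc : ∀ i, 0 < cr (nu p i) (nu p (i + 1)) := cr_nu hinj hP
  obtain ⟨z, ρ, hI, hρ⟩ := big_disc hCD hP hF
  have hρ0 : 0 < ρ := hI.1
  have hdk0 : 0 ≤ dk p k := by unfold dk; positivity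
  -- the other sides
  have hw : ∀ j, ∃ (w : ℂ) (s : ℝ), ‖w‖ = 1 ∧ 0 < s ∧ (sk (nu p) j + sk (nu p) (j + 1) < 0 →
      dk p j = s * ‖p (j + 1) - p j‖ ∧ el (nu p) j (co p) = ‖p (j + 1) - p j‖ ∧
      ∀ S : Set ℂ, S.Finite → (0 : ℂ) ∈ S →
        el (nu p) j (fun i => hS S (nu p i)) ≤ (hS S w + hS S (-w)) / s) := by
    intro j
    by_cases h : sk (nu p) j + sk (nu p) (j + 1) < 0
    · obtain ⟨w, s, h1, h2, h3⟩ := range_el hP h
      exact ⟨w, s, h1, h2, fun _ => h3⟩
    · exact ⟨1, 1, by simp, one_pos, fun h' => absurd h' h⟩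
  choose w s hw1 hs hws using hw
  set J : Finset (Fin (1 + 3)) :=
    Finset.univ.filter fun j => j ≠ k ∧ sk (nu p) j + sk (nu p) (j + 1) < 0 with hJ
  have hJm : ∀ j, j ∈ J ↔ (j ≠ k ∧ sk (nu p) j + sk (nu p) (j + 1) < 0) := fun j => by
    rw [hJ, Finset.mem_filter]; exact ⟨fun h => h.2, fun h => ⟨Finset.mem_univ _, h⟩⟩
  obtain ⟨x, hxk, hxJ⟩ := exists_low J (fun j => dk p j / 2) (dk p k / 2) (fun j hj => by
    have h := (hJm j).1 hj
    have := hF.2 j h.1 h.2.le
    linarith)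
  have hx0 : 0 < x := lt_of_le_of_lt (by positivity) hxk
  obtain ⟨A, hA1, hA2⟩ : ∃ A : ℝ, dk p k ^ 2 < A ∧ A < min (4 * x ^ 2) (4 * ρ ^ 2) :=
    exists_between (lt_min (by nlinarith) (by nlinarith))
  have hA3 : A < 4 * x ^ 2 := hA2.trans_le (min_le_left _ _)
  have hA4 : A < 4 * ρ ^ 2 := hA2.trans_le (min_le_right _ _)
  have hA0 : 0 < A := lt_of_le_of_lt (sq_nonneg _) hA1
  set F : Finset ((Fin 3 → ℂ) × (Fin 3 → ℝ)) :=
    J.image fun j => ((![w j, -w j, w j], ![1 / 2, 1 / 2, 0]) : (Fin 3 → ℂ) × (Fin 3 → ℝ)) with hFd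
  have hFc : ∀ b ∈ F, (∀ i, ‖b.1 i‖ = 1) ∧ (∀ i, 0 ≤ b.2 i) ∧ ∑ i, b.2 i = 1 ∧
      ∑ i, (b.2 i : ℂ) * b.1 i = 0 := by
    intro b hb
    obtain ⟨j, -, rfl⟩ := Finset.mem_image.1 hb
    refine ⟨?_, ?_, ?_, ?_⟩
    · intro i
      fin_cases i
      · exact hw1 j
      · change ‖-w j‖ = 1
        rw [norm_neg]; exact hw1 j
      · exact hw1 j
    · intro i
      fin_cases i <;> simp
    · rw [Fin.sum_univ_three]
      change (1 / 2 : ℝ) + 1 / 2 + 0 = 1
      norm_num
    · rw [Fin.sum_univ_three]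
      change ((1 / 2 : ℝ) : ℂ) * w j + ((1 / 2 : ℝ) : ℂ) * (-w j) + ((0 : ℝ) : ℂ) * w j = 0
      rw [Complex.ofReal_zero]
      ring
  obtain ⟨N₁, hN₁⟩ := h_BX F hFc x (A / x ^ 2) hx0 (by positivity)
    (by rw [div_lt_iff₀ (by positivity)]; exact hA3)
  obtain ⟨N₂, hN₂⟩ := h_EX 1 p hP z ρ (A / ρ ^ 2) hI (by positivity)
    (by rw [div_lt_iff₀ (by positivity)]; exact hA4)
  set N : ℕ := max N₁ N₂ + 1 with hN
  have hN0 : 0 < N := Nat.succ_pos _
  obtain ⟨K₁, hK₁, hb1⟩ := hN₁ N (le_trans (le_max_left _ _) (Nat.le_succ _)) hN0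
  obtain ⟨K₂, hK₂, hb2⟩ := hN₂ N (le_trans (le_max_right _ _) (Nat.le_succ _)) hN0
  obtain ⟨C, hC, hQ⟩ := Qd_le hP hk
  refine ⟨A, C * (K₁ + K₂), N, hA1, hN0, fun j t hj ht ht1 => ?_⟩
  have hM : 0 < N * j := Nat.mul_pos hN0 hj
  have hMR : (0 : ℝ) < ((N * j : ℕ) : ℝ) := by exact_mod_cast hM
  have hss : 0 < t / ((N * j : ℕ) : ℝ) := div_pos ht hMR
  have hprob := PG_prob hss (N * j)
  have hb1' := hb1 j t hj ht ht1
  have hb2' := hb2 j t hj ht ht1
  have e1 : A / x ^ 2 * x ^ 2 = A := by field_simp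
  have e2 : A / ρ ^ 2 * ρ ^ 2 = A := by field_simp
  rw [e1] at hb1'
  rw [e2] at hb2'
  set B1 : Set (Fin (N * j) → ℂ) := {X | ∃ b ∈ F, x ≤ ∑ i, b.2 i * hx X (b.1 i)} with hB1
  set B2 : Set (Fin (N * j) → ℂ) :=
    {X | ¬(hp (nu p) (fun i => co p i - hx X (nu p i))).Nonempty} with hB2
  have hB1m : MeasurableSet B1 := by
    have h1 : B1 = ⋃ b ∈ F, {X | x ≤ ∑ i, b.2 i * hx X (b.1 i)} := by
      ext X; simp [hB1]
    rw [h1]
    refine Finset.measurableSet_biUnion _ fun b _ => ?_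
    have h2 : Continuous (fun X : Fin (N * j) → ℂ => ∑ i, b.2 i * hx X (b.1 i)) :=
      continuous_finsetSum _ fun i _ => (hx_cont hM _).const_mul _
    exact (isClosed_le continuous_const h2).measurableSet
  have hgood : ∀ X : Fin (N * j) → ℂ, X ∉ B1 → X ∉ B2 → Qd p k X = 0 := by
    intro X h1 h2
    have hne : (hp (nu p) (fun i => co p i - hx X (nu p i))).Nonempty := not_not.1 h2
    refine good hP hk hne fun i hi hsi => ?_
    by_contra hcon
    push Not at hcon
    apply h1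
    obtain ⟨a1, a2, a3⟩ := hws i hsi
    have a4 := a3 (pts X) (pts_finite X) (pts_zero hM X)
    have a5 := el_sub (p := p) i X
    rw [a2] at a5
    rw [a5] at hcon
    have a6 : ys p i X = el (nu p) i (fun l => hS (pts X) (nu p l)) := rfl
    rw [← a6] at a4
    have a7 : ‖p (i + 1) - p i‖ < (hS (pts X) (w i) + hS (pts X) (-w i)) / s i := by linarith
    rw [lt_div_iff₀ (hs i), mul_comm, ← a1] at a7
    have hiJ : i ∈ J := (hJm i).2 ⟨hi, hsi⟩
    have a8 := hxJ i hiJ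
    refine ⟨_, Finset.mem_image.2 ⟨i, hiJ, rfl⟩, ?_⟩
    rw [Fin.sum_univ_three]
    change x ≤ (1 / 2 : ℝ) * hx X (w i) + 1 / 2 * hx X (-w i) + 0 * hx X (w i)
    have a9 : hS (pts X) (w i) + hS (pts X) (-w i) = hx X (w i) + hx X (-w i) := rfl
    rw [a9] at a7
    linarith
  -- integrals
  have hint : Integrable (fun X : Fin (N * j) → ℂ => (max (ys p k X - ‖p (k + 1) - p k‖) 0) ^ 2)
      (PG (t / ((N * j : ℕ) : ℝ)) (N * j)) :=
    GLn.sq_int tm fl hM hss (ys_cont k hM) (ys_le hu hc k hM) _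
  obtain ⟨hi1, hi2, hi3⟩ := (h_IN _ p hP).1 (N * j) _ hM hss
  have hdi : Integrable (fun X => dl p X) (PG (t / ((N * j : ℕ) : ℝ)) (N * j)) :=
    hi1.sub (L1.int_qq hss hi2 hi3)
  have hE : eM p t (N * j) - NN (sk (nu p) (k + 1)) (sk (nu p) k) ‖p (k + 1) - p k‖ t (N * j) /
      (-(2 * (sk (nu p) k + sk (nu p) (k + 1)))) =
      ∫ X, Qd p k X ∂(PG (t / ((N * j : ℕ) : ℝ)) (N * j)) := by
    unfold Qd
    rw [integral_sub hdi (hint.div_const _), integral_div, ri hP k _ t (N * j) ht hM, eM]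
  rw [hE]
  have h2 := norm_integral_le_lintegral_norm (μ := PG (t / ((N * j : ℕ) : ℝ)) (N * j))
    (fun X => Qd p k X)
  rw [Real.norm_eq_abs] at h2
  refine h2.trans ?_
  refine ENNReal.toReal_le_of_le_ofReal (by positivity) ?_
  have h3 : ∀ X : Fin (N * j) → ℂ, ENNReal.ofReal ‖Qd p k X‖ ≤
      ENNReal.ofReal C * B1.indicator (fun X => ENNReal.ofReal (1 + mx X ^ 2)) X +
      ENNReal.ofReal C * B2.indicator (fun X => ENNReal.ofReal (1 + mx X ^ 2)) X := by
    intro X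
    have hle : ENNReal.ofReal ‖Qd p k X‖ ≤ ENNReal.ofReal C * ENNReal.ofReal (1 + mx X ^ 2) := by
      rw [← ENNReal.ofReal_mul hC]
      refine ENNReal.ofReal_le_ofReal ?_
      rw [Real.norm_eq_abs]
      exact hQ _ hM X
    by_cases hX1 : X ∈ B1
    · rw [indicator_of_mem hX1]
      exact hle.trans le_self_add
    · by_cases hX2 : X ∈ B2
      · rw [indicator_of_mem hX2]
        exact hle.trans le_add_self
      · rw [hgood X hX1 hX2]; simp
  refine (lintegral_mono h3).trans ?_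
  have hmm : Measurable (fun X : Fin (N * j) → ℂ => ENNReal.ofReal C *
      B1.indicator (fun X => ENNReal.ofReal (1 + mx X ^ 2)) X) := by
    refine Measurable.const_mul ?_ _
    refine Measurable.indicator ?_ hB1m
    exact (((mx_cont hM).pow 2).const_add 1).measurable.ennreal_ofReal
  rw [lintegral_add_left hmm, lintegral_const_mul' _ _ ENNReal.ofReal_ne_top,
    lintegral_const_mul' _ _ ENNReal.ofReal_ne_top]
  refine (add_le_add (mul_le_mul_right hb1' _) (mul_le_mul_right hb2' _)).trans ?_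
  rw [← ENNReal.ofReal_mul hC, ← ENNReal.ofReal_mul hC, ← ENNReal.ofReal_add (by positivity)
    (by positivity)]
  refine ENNReal.ofReal_le_ofReal (le_of_eq ?_)
  ring

end Pool.Agent.N130.QD
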